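import Pool.Agent.Helper26.TK.Stmts

set_option autoImplicit false

namespace Pool.Agent.Helper28.TK

open Set Filter Topology

/-- Evaluation at a continuous functional is weakly continuous. -/
lemma eval_weak_cont {X : Type} [NormedAddCommGroup X] [NormedSpace ℝ X] (ψ : X →L[ℝ] ℝ) :
    Continuous (fun w : WeakSpace ℝ X => ψ ((toWeakSpace ℝ X).symm w)) :=
  WeakBilin.eval_continuous (topDualPairing ℝ X).flip ψ

/-- Partial sums of coordinates selected by `θ`. -/
noncomputable def Psi {X : Type} [NormedAddCommGroup X] [NormedSpace ℝ X]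
    (F : ℕ → (X →L[ℝ] ℝ)) (hF : ∀ n w, ∑ k ∈ Finset.range n, |F k w| ≤ ‖w‖) (θ : ℕ → Bool) :
    X →L[ℝ] ℝ :=
  LinearMap.mkContinuous
    { toFun := fun w => ∑' k, (if θ k then F k w else 0)
      map_add' := by
        intro u w
        have hs : ∀ w : X, Summable (fun k => |F k w|) := fun w =>
          summable_of_sum_range_le (fun _ => abs_nonneg _) (fun n => hF n w)
        have hs' : ∀ w : X, Summable (fun k => if θ k then F k w else 0) := fun w => by
          refine Summable.of_norm_bounded (hs w) (fun k => ?_)
          split_ifs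
          · simp
          · simp
        rw [← (hs' u).tsum_add (hs' w)]
        refine tsum_congr (fun k => ?_)
        split_ifs <;> simp
      map_smul' := by
        intro c w
        simp only [map_smul, smul_eq_mul, RingHom.id_apply]
        rw [← tsum_mul_left]
        refine tsum_congr (fun k => ?_)
        split_ifs <;> simp } 1 (by
    intro w
    have hs : Summable (fun k => |F k w|) :=
      summable_of_sum_range_le (fun _ => abs_nonneg _) (fun n => hF n w)
    have hb : ∀ k, ‖(if θ k then F k w else 0)‖ ≤ |F k w| := fun k => by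
      split_ifs
      · simp
      · simp
    have h1 : ‖∑' k, (if θ k then F k w else 0)‖ ≤ ∑' k, |F k w| :=
      tsum_of_norm_bounded hs.hasSum hb
    have h2 : ∑' k, |F k w| ≤ ‖w‖ :=
      Real.tsum_le_of_sum_range_le (fun _ => abs_nonneg _) (fun n => hF n w)
    rw [one_mul]
    exact h1.trans h2)

theorem stmtS : Pool.Agent.Helper26.TK.StmtS := by
  intro X _ _ _ c L hc hL v hv F hF δ hδ
  by_contra hcon
  push Not at hcon
  have hsum : ∀ w : X, Summable (fun k => |F k w|) := fun w =>
    summable_of_sum_range_le (fun _ => abs_nonneg _) (fun n => hF n w)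
  -- sequential compactness
  obtain ⟨v0, φ, hφ, hlim⟩ : ∃ (v0 : X) (φ : ℕ → ℕ), StrictMono φ ∧
      ∀ ψ : X →L[ℝ] ℝ, Tendsto (fun j => ψ (v (φ j))) atTop (𝓝 (ψ v0)) := by
    let L' : Set (WeakSpace ℝ X) := (toWeakSpace ℝ X) '' L
    have : CompactSpace L' := isCompact_iff_compactSpace.1 hL
    let Φ : L' → (ℕ → ℝ) := fun w n => c n ((toWeakSpace ℝ X).symm w.1)
    have hΦc : Continuous Φ := by
      refine continuous_pi (fun n => ?_)
      exact (eval_weak_cont (c n)).comp continuous_subtype_val
    have hΦi : Function.Injective Φ := by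
      intro a b hab
      apply Subtype.ext
      have h0 : (toWeakSpace ℝ X).symm a.1 - (toWeakSpace ℝ X).symm b.1 = 0 := by
        apply hc
        intro n
        have := congrFun hab n
        simp only [Φ] at this
        rw [map_sub, this, sub_self]
      exact (toWeakSpace ℝ X).symm.injective (sub_eq_zero.1 h0)
    have hemb := (hΦc.isClosedEmbedding hΦi).isEmbedding
    have : FirstCountableTopology L' := hemb.firstCountableTopology
    obtain ⟨a, φ, hφ, hlim⟩ := SeqCompactSpace.tendsto_subseq
      (fun k => (⟨toWeakSpace ℝ X (v k), ⟨v k, hv k, rfl⟩⟩ : L'))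
    refine ⟨(toWeakSpace ℝ X).symm a.1, φ, hφ, fun ψ => ?_⟩
    have hcont : Continuous (fun w : L' => ψ ((toWeakSpace ℝ X).symm w.1)) :=
      (eval_weak_cont ψ).comp continuous_subtype_val
    have := (hcont.tendsto a).comp hlim
    simpa [Function.comp_def] using this
  -- Baire category
  let A : ℕ → ℕ → ℝ := fun j i => F i (v (φ j)) - F i v0
  have hAs : ∀ j, Summable (fun i => |A j i|) := by
    intro j
    have := hsum (v (φ j) - v0)
    simpa [A, map_sub] using this
  let G : ℕ → (ℕ → Bool) → ℝ := fun j θ => ∑' i, (if θ i then A j i else 0)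
  have hGc : ∀ j, Continuous (G j) := by
    intro j
    refine continuous_tsum (u := fun i => |A j i|) (fun i => ?_) (hAs j) (fun i θ => ?_)
    · have h1 : Continuous (fun b : Bool => if b then A j i else 0) := continuous_of_discreteTopology
      exact h1.comp (continuous_apply i)
    · split_ifs
      · simp
      · simp
  have hGt : ∀ θ, Tendsto (fun j => G j θ) atTop (𝓝 0) := by
    intro θ
    have h1 := (hlim (Psi F hF θ)).sub_const (Psi F hF θ v0)
    rw [sub_self] at h1
    refine h1.congr (fun j => ?_)
    have h2 : ∀ w, Psi F hF θ w = ∑' k, (if θ k then F k w else 0) := fun w => rfl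
    rw [← map_sub, h2]
    refine tsum_congr (fun i => ?_)
    simp only [A, map_sub]
  let E : ℕ → Set (ℕ → Bool) := fun n => {θ | ∀ j, n ≤ j → |G j θ| ≤ δ / 8}
  have hEc : ∀ n, IsClosed (E n) := by
    intro n
    have : E n = ⋂ j, ⋂ (_ : n ≤ j), {θ | |G j θ| ≤ δ / 8} := by
      ext θ
      simp [E]
    rw [this]
    refine isClosed_iInter (fun j => isClosed_iInter (fun _ => ?_))
    exact isClosed_le ((hGc j).abs) continuous_const
  have hEu : ⋃ n, E n = univ := by
    refine eq_univ_of_forall (fun θ => ?_)
    have h1 := (hGt θ).abs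
    rw [abs_zero] at h1
    have h2 := h1.eventually (eventually_le_nhds (show (0:ℝ) < δ / 8 by positivity))
    obtain ⟨n, hn⟩ := eventually_atTop.1 h2
    exact mem_iUnion.2 ⟨n, fun j hj => hn j hj⟩
  obtain ⟨n, θ0, hθ0⟩ := nonempty_interior_of_iUnion_of_closed hEc hEu
  obtain ⟨I, u, hu, hIu⟩ := isOpen_pi_iff.1 isOpen_interior θ0 hθ0
  have hsmall : ∀ i, i ∉ I → ∀ j, n ≤ j → |A j i| ≤ δ / 4 := by
    intro i hi j hj
    have hmem : ∀ b : Bool, Function.update θ0 i b ∈ E n := by
      intro b
      apply interior_subset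
      apply hIu
      intro k hk
      have hki : k ≠ i := fun h => hi (h ▸ hk)
      rw [Function.update_of_ne hki]
      exact (hu k hk).2
    have h1 := hmem true j hj
    have h2 := hmem false j hj
    have h3 : G j (Function.update θ0 i true) - G j (Function.update θ0 i false) = A j i := by
      have hs : ∀ θ : ℕ → Bool, Summable (fun i => if θ i then A j i else 0) := fun θ => by
        refine Summable.of_norm_bounded (hAs j) (fun k => ?_)
        split_ifs
        · simp
        · simp
      simp only [G]
      rw [← (hs _).tsum_sub (hs _), tsum_eq_single i]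
      · simp
      · intro k hk
        rw [Function.update_of_ne hk, Function.update_of_ne hk, sub_self]
    rw [← h3]
    calc |G j (Function.update θ0 i true) - G j (Function.update θ0 i false)|
        ≤ |G j (Function.update θ0 i true)| + |G j (Function.update θ0 i false)| := abs_sub _ _
      _ ≤ δ / 4 := by linarith
  have hv0 : Tendsto (fun i => |F i v0|) atTop (𝓝 0) := (hsum v0).tendsto_atTop_zero
  have hv0' := hφ.tendsto_atTop.eventually
    (hv0.eventually (eventually_le_nhds (show (0:ℝ) < δ / 4 by positivity)))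
  obtain ⟨j, hj1, hj2, hj3⟩ : ∃ j, n ≤ j ∧ φ j ∉ I ∧ |F (φ j) v0| ≤ δ / 4 := by
    have hI : ∀ᶠ j in atTop, φ j ∉ I := by
      have : ∀ᶠ m in (atTop : Filter ℕ), m ∉ I := by
        have := (I.finite_toSet).isCompact
        filter_upwards [eventually_gt_atTop (I.sup id)] with m hm hmI
        exact absurd (Finset.le_sup (f := id) hmI) (not_le.2 hm)
      exact hφ.tendsto_atTop.eventually this
    obtain ⟨j, h1, h2, h3⟩ := ((eventually_ge_atTop n).and (hI.and hv0')).exists
    exact ⟨j, h1, h2, h3⟩
  have h1 := hsmall _ hj2 j hj1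
  have h2 := hcon (φ j)
  have h3 : F (φ j) (v (φ j)) = A j (φ j) + F (φ j) v0 := by simp [A]
  rw [h3] at h2
  have h4 := le_abs_self (A j (φ j))
  have h5 := le_abs_self (F (φ j) v0)
  linarith

end Pool.Agent.Helper28.TK
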